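import Pool.Agent.H889R3.RQ.Stmts

set_option autoImplicit false

namespace Pool.Agent.H169R3.RQ

open Finset Pool.Agent.H572R2 Pool.Agent.H572R4.QA Pool.Agent.H889R3.RQ

variable {N : ℕ}

lemma inf2_nonneg (f : (Fin N → Bool) → ℝ) (i : Fin N) : 0 ≤ inf2 f i :=
  EE_nonneg fun _ => sq_nonneg _

lemma tot_nonneg (f : (Fin N → Bool) → ℝ) : 0 ≤ tot f :=
  Finset.sum_nonneg fun i _ => inf2_nonneg f i

lemma bad_nonneg (f : (Fin N → Bool) → ℝ) (T : DTree (Fin N)) (x : Fin N → Bool) :
    0 ≤ bad f T x := by
  unfold bad; split_ifs <;> norm_num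

lemma bad_le_one (f : (Fin N → Bool) → ℝ) (T : DTree (Fin N)) (x : Fin N → Bool) :
    bad f T x ≤ 1 := by
  unfold bad; split_ifs <;> norm_num

lemma EE_bad_le_one (f : (Fin N → Bool) → ℝ) (T : DTree (Fin N)) : EE (bad f T) ≤ 1 := by
  have := EE_mono (f := bad f T) (g := fun _ => (1 : ℝ)) (bad_le_one f T)
  rwa [EE_const] at this

lemma inf2_eq_zero (g : (Fin N → Bool) → ℝ) (j : Fin N)
    (h : ∀ x b, g (Function.update x j b) = g x) : inf2 g j = 0 := by
  unfold inf2
  have : ∀ x, ((g x - g (flp j x)) / 2) ^ 2 = 0 := by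
    intro x
    have : g (flp j x) = g x := h x _
    rw [this]; simp
  rw [EE_congr this, EE_const]

lemma sim_inv (τ : ℝ) (hτ : 0 < τ) (j : Fin N) (m : ℕ) : ∀ g : (Fin N → Bool) → ℝ,
    (∀ x b, g (Function.update x j b) = g x) →
    ∀ x b, (sim τ m g).eval (Function.update x j b) = (sim τ m g).eval x := by
  induction m with
  | zero => intro g _ x b; simp [sim, DTree.eval]
  | succ m ih =>
    intro g hg x b
    by_cases h : ∃ i, τ ≤ inf2 g i
    · have hne : h.choose ≠ j := by
        intro heq
        have h1 := h.choose_spec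
        rw [heq, inf2_eq_zero g j hg] at h1
        linarith
      have hrs : ∀ c, ∀ x b, rs h.choose c g (Function.update x j b) = rs h.choose c g x := by
        intro c x b
        unfold rs
        rw [Function.update_comm hne.symm, hg]
      have hx : Function.update x j b h.choose = x h.choose := Function.update_of_ne hne _ _
      simp only [sim, dif_pos h, DTree.eval, hx, ih _ (hrs true) x b, ih _ (hrs false) x b]
    · simp only [sim, dif_neg h, DTree.eval]

lemma bad_leaf (f : (Fin N → Bool) → ℝ) (b : Bool) (hb : b = true ↔ 1 / 2 ≤ EE f) :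
    EE (bad f (DTree.leaf b)) ≤ 36 * var f := by
  have h1 : ∀ x, bad f (DTree.leaf b) x ≤ 36 * (f x - EE f) ^ 2 := by
    intro x
    unfold bad
    split_ifs with h
    · simp only [DTree.eval] at h
      rcases h with ⟨h2, h3⟩ | ⟨h2, h3⟩
      · have h4 : ¬ (1 / 2 ≤ EE f) := by
          rw [← hb, h3]; simp
        push Not at h4
        nlinarith
      · have h4 := hb.1 h3
        nlinarith
    · positivity
  refine (EE_mono h1).trans (le_of_eq ?_)
  have h2 : ∀ x, 36 * (f x - EE f) ^ 2 =
      36 * f x ^ 2 - ((72 * EE f) * f x - 36 * EE f ^ 2) := by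
    intro x; ring
  rw [EE_congr h2, EE_sub, EE_sub, EE_mul 36 (fun x => f x ^ 2), EE_mul, EE_const]
  unfold var
  ring

lemma bad_ask (τ : ℝ) (hτ : 0 < τ) (m : ℕ) (f : (Fin N → Bool) → ℝ) (j : Fin N) :
    2 * EE (bad f (DTree.ask j (sim τ m (rs j false f)) (sim τ m (rs j true f)))) =
      EE (bad (rs j false f) (sim τ m (rs j false f))) +
      EE (bad (rs j true f) (sim τ m (rs j true f))) := by
  rw [← EE_rs _ j, add_comm]
  have hrs : ∀ c, ∀ x b, rs j c f (Function.update x j b) = rs j c f x := by
    intro c x b
    unfold rs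
    rw [Function.update_idem]
  congr 1
  · refine EE_congr fun x => ?_
    have h1 := sim_inv τ hτ j m _ (hrs false) x false
    simp only [rs, bad, DTree.eval, Function.update_self] at h1 ⊢
    simp only [Bool.false_eq_true, if_false]
    rw [h1]
    split_ifs <;> rfl
  · refine EE_congr fun x => ?_
    have h1 := sim_inv τ hτ j m _ (hrs true) x true
    simp only [rs, bad, DTree.eval, Function.update_self] at h1 ⊢
    simp only [if_true]
    rw [h1]
    split_ifs <;> rfl

theorem a3 (h1 : St_A1) : St_A3 := by
  intro N F τ v hτ hv hF hvar m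
  induction m with
  | zero =>
    intro f _
    refine ⟨by simp [sim, DTree.depth], ?_⟩
    have := tot_nonneg f
    simpa using this
  | succ m ih =>
    intro f hf
    by_cases h : ∃ j, τ ≤ inf2 f j
    · have hs : sim τ (m + 1) f = DTree.ask h.choose (sim τ m (rs h.choose false f))
          (sim τ m (rs h.choose true f)) := by
        simp only [sim, dif_pos h]
      have hspec := h.choose_spec
      rw [hs]
      generalize h.choose = j at hspec
      obtain ⟨d0, e0⟩ := ih _ (hF f hf j false)
      obtain ⟨d1, e1⟩ := ih _ (hF f hf j true)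
      refine ⟨?_, ?_⟩
      · simp only [DTree.depth]
        omega
      · have hb := bad_ask τ hτ m f j
        have ha := h1 N f j
        have hle := EE_bad_le_one f (DTree.ask j (sim τ m (rs j false f)) (sim τ m (rs j true f)))
        have hb' : EE (bad f (DTree.ask j (sim τ m (rs j false f)) (sim τ m (rs j true f)))) =
          (EE (bad (rs j false f) (sim τ m (rs j false f))) +
            EE (bad (rs j true f) (sim τ m (rs j true f)))) / 2 := by linarith
        rw [hb'] at hle ⊢
        set A := EE (bad (rs j false f) (sim τ m (rs j false f)))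
        set B := EE (bad (rs j true f) (sim τ m (rs j true f)))
        push_cast
        have h3 : τ * ((A + B) / 2 - 36 * v) ≤ τ * 1 := by
          refine mul_le_mul_of_nonneg_left ?_ hτ.le
          linarith
        nlinarith
    · have hs : sim τ (m + 1) f = DTree.leaf (@decide (1 / 2 ≤ EE f) (Classical.propDecidable _)) := by
        simp only [sim, dif_neg h]
      rw [hs]
      refine ⟨by simp [DTree.depth], ?_⟩
      push Not at h
      have h2 := hvar f hf h
      have h3 := bad_leaf f (@decide (1 / 2 ≤ EE f) (Classical.propDecidable _)) (by simp)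
      have h4 := tot_nonneg f
      have h5 : ((m + 1 : ℕ) : ℝ) * τ * (EE (bad f (DTree.leaf
          (@decide (1 / 2 ≤ EE f) (Classical.propDecidable _)))) - 36 * v) ≤ 0 := by
        refine mul_nonpos_of_nonneg_of_nonpos (by positivity) ?_
        linarith
      exact h5.trans h4

end Pool.Agent.H169R3.RQ
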